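import Pool.Agent.H.MP_4bcbbd_co.Base

/-!
MP_4bcbbd_co, edges in all dimensions: comparison of volumes by the lengths of fibres in a direction.
-/

set_option autoImplicit false

namespace Pool.Agent.H.MP_4bcbbd_co.K8

open scoped BigOperators ENNReal
open MeasureTheory

/-- the length of the fibre of `S` through `z` in direction `u`. -/
noncomputable def len {d : ℕ} (u : E d) (S : Set (E d)) (z : E d) : ℝ≥0∞ :=
  volume {t : ℝ | z + t • u ∈ S}

theorem len_add {d : ℕ} (u : E d) (S : Set (E d)) (z : E d) (s : ℝ) :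
    len u S (z + s • u) = len u S z := by
  unfold len
  have h1 : {t : ℝ | z + s • u + t • u ∈ S} = (fun t => t + s) ⁻¹' {t : ℝ | z + t • u ∈ S} := by
    ext t
    simp only [Set.mem_ofPred_eq, Set.mem_preimage]
    have : z + s • u + t • u = z + (t + s) • u := by module
    rw [this]
  rw [h1, measure_preimage_add_right]

theorem len_neg {d : ℕ} (u : E d) (S : Set (E d)) (z : E d) :
    len u S z = volume {t : ℝ | z - t • u ∈ S} := by
  unfold len
  have h1 : {t : ℝ | z - t • u ∈ S} = (fun t => -t) ⁻¹' {t : ℝ | z + t • u ∈ S} := by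
    ext t
    simp only [Set.mem_ofPred_eq, Set.mem_preimage]
    have : z - t • u = z + (-t) • u := by module
    rw [this]
  rw [h1, Measure.measure_preimage_neg]

theorem measurable_len {d : ℕ} (u : E d) {S : Set (E d)} (hS : IsOpen S) :
    Measurable (len u S) := by
  have h1 : MeasurableSet {q : E d × ℝ | q.1 + q.2 • u ∈ S} :=
    (hS.preimage (by fun_prop : Continuous fun q : E d × ℝ => q.1 + q.2 • u)).measurableSet
  exact measurable_measure_prodMk_left h1

theorem len_pos {d : ℕ} (u : E d) {S : Set (E d)} (hS : IsOpen S) {z : E d} (hz : z ∈ S) :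
    0 < len u S z := by
  have h1 : IsOpen {t : ℝ | z + t • u ∈ S} :=
    hS.preimage (by fun_prop : Continuous fun t : ℝ => z + t • u)
  refine h1.measure_pos volume ⟨0, ?_⟩
  show z + (0 : ℝ) • u ∈ S
  rw [zero_smul, add_zero]
  exact hz

/-- The comparison: if the fibres of `A` are at most `κ` times as long as those of `B`, then the volume
of `A` is at most `κ` times that of `B`. -/
theorem vol_le_of_len {d : ℕ} (u : E d) {A B : Set (E d)} (hA : IsOpen A) (hB : IsOpen B)
    (κ : ℝ≥0∞) (h : ∀ z, len u A z ≤ κ * len u B z) (hfin : ∀ z, len u B z ≠ ⊤) :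
    volume A ≤ κ * volume B := by
  have hL := measurable_len u hB
  have hmA : Measurable (A.indicator fun _ => (1 : ℝ≥0∞)) :=
    measurable_const.indicator hA.measurableSet
  have hmB : Measurable (B.indicator fun _ => (1 : ℝ≥0∞)) :=
    measurable_const.indicator hB.measurableSet
  have e1 : volume A = ∫⁻ z, ∫⁻ t : ℝ, A.indicator (fun _ => (1 : ℝ≥0∞)) z * (len u B z)⁻¹ *
      B.indicator (fun _ => (1 : ℝ≥0∞)) (z + t • u) := by
    rw [← lintegral_indicator_one hA.measurableSet]
    refine lintegral_congr fun z => ?_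
    have e2 : ∫⁻ t : ℝ, B.indicator (fun _ => (1 : ℝ≥0∞)) (z + t • u) = len u B z := by
      have e3 : (fun t : ℝ => B.indicator (fun _ => (1 : ℝ≥0∞)) (z + t • u)) =
          Set.indicator {t : ℝ | z + t • u ∈ B} 1 := by
        ext t
        simp [Set.indicator]
      rw [e3, lintegral_indicator_one]
      · rfl
      · exact (hB.preimage (by fun_prop : Continuous fun t : ℝ => z + t • u)).measurableSet
    rw [lintegral_const_mul, e2]
    · by_cases hz : z ∈ A
      · have h1 : 0 < len u B z := by
          by_contra h2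
          have h3 : len u B z = 0 := by simpa using h2
          have h4 := h z
          rw [h3, mul_zero] at h4
          exact absurd (len_pos u hA hz) (by simpa using h4)
        rw [mul_assoc, ENNReal.inv_mul_cancel h1.ne' (hfin z)]
        simp [Set.indicator, hz]
      · simp [Set.indicator, hz]
    · exact hmB.comp (by fun_prop)
  have hmF : Measurable (Function.uncurry fun (z : E d) (t : ℝ) =>
      A.indicator (fun _ => (1 : ℝ≥0∞)) z * (len u B z)⁻¹ *
      B.indicator (fun _ => (1 : ℝ≥0∞)) (z + t • u)) := by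
    refine Measurable.mul (Measurable.mul ?_ ?_) ?_
    · exact hmA.comp measurable_fst
    · exact (hL.comp measurable_fst).inv
    · exact hmB.comp (by fun_prop : Measurable fun q : E d × ℝ => q.1 + q.2 • u)
  rw [e1, lintegral_lintegral_swap hmF.aemeasurable]
  have e4 : ∀ t : ℝ, ∫⁻ z, A.indicator (fun _ => (1 : ℝ≥0∞)) z * (len u B z)⁻¹ *
      B.indicator (fun _ => (1 : ℝ≥0∞)) (z + t • u) =
      ∫⁻ z, A.indicator (fun _ => (1 : ℝ≥0∞)) (z - t • u) * (len u B z)⁻¹ *
      B.indicator (fun _ => (1 : ℝ≥0∞)) z := by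
    intro t
    rw [← lintegral_sub_right_eq_self _ (t • u)]
    refine lintegral_congr fun z => ?_
    have e5 : len u B (z - t • u) = len u B z := by
      have : z - t • u = z + (-t) • u := by module
      rw [this, len_add]
    rw [e5, sub_add_cancel]
  rw [lintegral_congr e4]
  have hmG : Measurable (Function.uncurry fun (t : ℝ) (z : E d) =>
      A.indicator (fun _ => (1 : ℝ≥0∞)) (z - t • u) * (len u B z)⁻¹ *
      B.indicator (fun _ => (1 : ℝ≥0∞)) z) := by
    refine Measurable.mul (Measurable.mul ?_ ?_) ?_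
    · exact hmA.comp (by fun_prop : Measurable fun q : ℝ × E d => q.2 - q.1 • u)
    · exact (hL.comp measurable_snd).inv
    · exact hmB.comp measurable_snd
  rw [lintegral_lintegral_swap hmG.aemeasurable]
  have e6 : ∀ z, ∫⁻ t : ℝ, A.indicator (fun _ => (1 : ℝ≥0∞)) (z - t • u) * (len u B z)⁻¹ *
      B.indicator (fun _ => (1 : ℝ≥0∞)) z ≤ κ * B.indicator (fun _ => (1 : ℝ≥0∞)) z := by
    intro z
    have e7 : ∫⁻ t : ℝ, A.indicator (fun _ => (1 : ℝ≥0∞)) (z - t • u) = len u A z := by
      have e3 : (fun t : ℝ => A.indicator (fun _ => (1 : ℝ≥0∞)) (z - t • u)) =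
          Set.indicator {t : ℝ | z - t • u ∈ A} 1 := by
        ext t
        simp [Set.indicator]
      rw [e3, lintegral_indicator_one, len_neg]
      exact (hA.preimage (by fun_prop : Continuous fun t : ℝ => z - t • u)).measurableSet
    have hm1 : Measurable fun t : ℝ => A.indicator (fun _ => (1 : ℝ≥0∞)) (z - t • u) :=
      hmA.comp (by fun_prop)
    rw [lintegral_mul_const _ (hm1.mul_const _), lintegral_mul_const _ hm1, e7]
    refine mul_le_mul_left ?_ _
    calc len u A z * (len u B z)⁻¹ ≤ κ * len u B z * (len u B z)⁻¹ := mul_le_mul_left (h z) _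
      _ = κ * (len u B z * (len u B z)⁻¹) := mul_assoc _ _ _
      _ ≤ κ * 1 := mul_le_mul_right (ENNReal.mul_inv_le_one _) _
      _ = κ := mul_one _
  refine le_trans (lintegral_mono e6) ?_
  rw [lintegral_const_mul _ hmB, lintegral_indicator_const hB.measurableSet, one_mul]

/-- intervals. -/
theorem vol_interval {I J : Set ℝ} (hc : Convex ℝ I) (hb : Bornology.IsBounded I)
    {α β : ℝ} (hα : 0 ≤ α) (hβ : 0 ≤ β) (h : ∀ t ∈ I, ∀ t' ∈ I, α * t - β * t' ∈ J) :
    ENNReal.ofReal (α + β) * volume I ≤ volume J := by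
  rcases I.eq_empty_or_nonempty with h0 | hne
  · rw [h0, measure_empty, mul_zero]
    exact zero_le
  have hcon : IsConnected I := ⟨hne, hc.isPreconnected⟩
  obtain ⟨a, ha⟩ : ∃ a, a = sInf I := ⟨_, rfl⟩
  obtain ⟨b, hb'⟩ : ∃ b, b = sSup I := ⟨_, rfl⟩
  have h1 : I ⊆ Set.Icc a b := by
    rw [ha, hb']
    exact subset_Icc_csInf_csSup hb.bddBelow hb.bddAbove
  have h2 : Set.Ioo a b ⊆ I := by
    rw [ha, hb']
    exact hcon.Ioo_csInf_csSup_subset hb.bddBelow hb.bddAbove
  have h3 : volume I ≤ ENNReal.ofReal (b - a) := by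
    rw [← Real.volume_Icc]
    exact measure_mono h1
  have h4 : (fun t => (α + β) * t - β * (a + b)) '' Set.Ioo a b ⊆ J := by
    rintro _ ⟨t, ht, rfl⟩
    have h5 : a + b - t ∈ Set.Ioo a b := ⟨by linarith [ht.2], by linarith [ht.1]⟩
    have h6 := h t (h2 ht) (a + b - t) (h2 h5)
    have h7 : α * t - β * (a + b - t) = (α + β) * t - β * (a + b) := by ring
    rw [h7] at h6
    exact h6
  rcases eq_or_lt_of_le (add_nonneg hα hβ) with h0 | hpos
  · rw [← h0, ENNReal.ofReal_zero, zero_mul]
    exact zero_le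
  have h8 : Set.Ioo ((α + β) * a - β * (a + b)) ((α + β) * b - β * (a + b)) ⊆
      (fun t => (α + β) * t - β * (a + b)) '' Set.Ioo a b := by
    intro x hx
    refine ⟨(x + β * (a + b)) / (α + β), ⟨?_, ?_⟩, ?_⟩
    · rw [lt_div_iff₀ hpos]
      linarith [hx.1]
    · rw [div_lt_iff₀ hpos]
      linarith [hx.2]
    · show (α + β) * ((x + β * (a + b)) / (α + β)) - β * (a + b) = x
      field_simp
      ring
  calc ENNReal.ofReal (α + β) * volume I ≤ ENNReal.ofReal (α + β) * ENNReal.ofReal (b - a) :=
        mul_le_mul_right h3 _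
    _ = ENNReal.ofReal ((α + β) * (b - a)) := (ENNReal.ofReal_mul hpos.le).symm
    _ = volume (Set.Ioo ((α + β) * a - β * (a + b)) ((α + β) * b - β * (a + b))) := by
        rw [Real.volume_Ioo]
        congr 1
        ring
    _ ≤ volume J := measure_mono (h8.trans h4)

end Pool.Agent.H.MP_4bcbbd_co.K8
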