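import Pool.Agent.H.MP_4bcbbd_co.helper8.Step
import Pool.Agent.H.MP_4bcbbd_co.C.MainR

/-!
MP_4bcbbd_co, edges in all dimensions: an improved packing bound for the cluster number.
-/

set_option autoImplicit false

namespace Pool.Agent.H.MP_4bcbbd_co.K8

open scoped BigOperators ENNReal Pointwise Topology
open MeasureTheory Filter Pool.Agent.H.MP_4bcbbd_co.C

theorem pow_diff {a b : ℝ} (hb : 0 ≤ b) (hab : b ≤ a) (m : ℕ) :
    a ^ (m + 1) - b ^ (m + 1) ≤ (m + 1) * a ^ m * (a - b) := by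
  have ha : 0 ≤ a := le_trans hb hab
  induction m with
  | zero => simp
  | succ m ih =>
    have h1 : a ^ (m + 1 + 1) - b ^ (m + 1 + 1) =
        a * (a ^ (m + 1) - b ^ (m + 1)) + b ^ (m + 1) * (a - b) := by ring
    have h2 : b ^ (m + 1) ≤ a ^ (m + 1) := pow_le_pow_left₀ hb hab _
    have h3 : a * (a ^ (m + 1) - b ^ (m + 1)) ≤ a * ((m + 1) * a ^ m * (a - b)) :=
      mul_le_mul_of_nonneg_left ih ha
    have h4 : b ^ (m + 1) * (a - b) ≤ a ^ (m + 1) * (a - b) :=
      mul_le_mul_of_nonneg_right h2 (by linarith)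
    rw [h1]
    push_cast
    have h5 : a * ((m + 1) * a ^ m * (a - b)) = (m + 1) * a ^ (m + 1) * (a - b) := by ring
    rw [h5] at h3
    linarith

theorem wv_zero {d : ℕ} (u : E d) (P : Set (E d)) (p : E d) : wv u P p 0 = vr P := by
  unfold wv
  congr 1
  ext z
  rw [zero_smul, add_zero, one_smul]
  constructor
  · exact fun h => h.1
  · intro h
    refine ⟨h, 0, ?_⟩
    rw [zero_smul, sub_zero, sub_zero]
    exact h

theorem wv_steps {m : ℕ} {P : Set (E (m + 1))} (hP : Body P) {p u : E (m + 1)} (hu : u ≠ 0)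
    (hp : p ∈ closure P) {n : ℕ} (hn : 1 ≤ n) (j : ℕ) (hj : j + 1 ≤ n) :
    (1 + (1 - 1 / (2 * (n : ℝ))) * (1 / ((m : ℝ) + 1)) *
      ((1 - 1 / (n : ℝ)) ^ (m + 1) - (1 - ((j : ℝ) + 1) / n) ^ (m + 1))) * vr P ≤
      wv u P p ((j : ℝ) / n) := by
  have hn0 : (0 : ℝ) < n := by exact_mod_cast (by omega : 0 < n)
  have hV : 0 ≤ vr P := ENNReal.toReal_nonneg
  induction j with
  | zero =>
    rw [Nat.cast_zero, zero_div, wv_zero]
    simp
  | succ j ih =>
    have hj' : ((j : ℝ) + 1 + 1) ≤ n := by exact_mod_cast hj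
    have h1 := ih (by omega)
    have h2 := wv_step (by omega) hP hu hp (σ := (j : ℝ) / n) (σ' := ((j : ℝ) + 1) / n)
      (by positivity) (by gcongr; linarith) (by rw [div_le_one hn0]; linarith)
    rw [Nat.add_sub_cancel] at h2
    have e1 : ((j : ℝ) + 1) / n - (j : ℝ) / n = 1 / n := by ring
    have e2 : (1 : ℝ) - 1 / n / 2 = 1 - 1 / (2 * (n : ℝ)) := by
      field_simp
    rw [e1, e2] at h2
    push_cast
    have h3 : (1 : ℝ) - ((j : ℝ) + 1) / n ≤ 1 - ((j : ℝ) / n + ((j : ℝ) + 1) / n) / 2 := by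
      have : (j : ℝ) / n ≤ ((j : ℝ) + 1) / n := by gcongr; linarith
      linarith
    have h4 : (0 : ℝ) ≤ 1 - ((j : ℝ) + 1 + 1) / n := by
      rw [sub_nonneg, div_le_one hn0]
      exact hj'
    have h5 : (1 : ℝ) - ((j : ℝ) + 1 + 1) / n ≤ 1 - ((j : ℝ) + 1) / n := by
      have : ((j : ℝ) + 1) / n ≤ ((j : ℝ) + 1 + 1) / n := by gcongr; linarith
      linarith
    have h6 := pow_diff h4 h5 m
    have e3 : (1 : ℝ) - ((j : ℝ) + 1) / n - (1 - ((j : ℝ) + 1 + 1) / n) = 1 / n := by ring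
    rw [e3] at h6
    have h7 : (1 - ((j : ℝ) + 1) / n) ^ m ≤
        (1 - ((j : ℝ) / n + ((j : ℝ) + 1) / n) / 2) ^ m :=
      pow_le_pow_left₀ (by linarith) h3 m
    have h8 : (0 : ℝ) ≤ 1 - 1 / (2 * (n : ℝ)) := by
      have h9 : (1 : ℝ) ≤ n := by exact_mod_cast hn
      rw [sub_nonneg, div_le_one (by positivity)]
      linarith
    have h9 : (1 / ((m : ℝ) + 1)) * ((1 - ((j : ℝ) + 1) / n) ^ (m + 1) -
        (1 - ((j : ℝ) + 1 + 1) / n) ^ (m + 1)) ≤
        1 / n * (1 - ((j : ℝ) / n + ((j : ℝ) + 1) / n) / 2) ^ m := by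
      rw [one_div_mul_eq_div, div_le_iff₀ (by positivity)]
      refine le_trans h6 ?_
      have h10 : 0 ≤ ((m : ℝ) + 1) * (1 / n) := by positivity
      have h11 := mul_le_mul_of_nonneg_left h7 h10
      calc ((m : ℝ) + 1) * (1 - ((j : ℝ) + 1) / n) ^ m * (1 / n) =
          ((m : ℝ) + 1) * (1 / n) * (1 - ((j : ℝ) + 1) / n) ^ m := by ring
        _ ≤ _ := h11
        _ = _ := by ring
    have h12 := mul_le_mul_of_nonneg_right (mul_le_mul_of_nonneg_left h9 h8) hV
    refine le_trans ?_ h2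
    refine le_trans ?_ (add_le_add_left h1 _)
    have e4 : (1 : ℝ) / n * (1 - 1 / (2 * (n : ℝ))) *
        (1 - ((j : ℝ) / n + ((j : ℝ) + 1) / n) / 2) ^ m * vr P =
        (1 - 1 / (2 * (n : ℝ))) *
        (1 / n * (1 - ((j : ℝ) / n + ((j : ℝ) + 1) / n) / 2) ^ m) * vr P := by ring
    rw [e4]
    refine le_trans (le_of_eq ?_) (add_le_add_right h12 _)
    ring

/-- The volume of the part of `2 P` in the cylinder over `p + P`. -/
theorem wv_one {m : ℕ} {P : Set (E (m + 1))} (hP : Body P) {p u : E (m + 1)} (hu : u ≠ 0)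
    (hp : p ∈ closure P) : (1 + 1 / ((m : ℝ) + 1)) * vr P ≤ wv u P p 1 := by
  have hV : 0 ≤ vr P := ENNReal.toReal_nonneg
  have h1 : ∀ n : ℕ, 1 ≤ n → (1 + (1 - 1 / (2 * (n : ℝ))) * (1 / ((m : ℝ) + 1)) *
      ((1 - 1 / (n : ℝ)) ^ (m + 1))) * vr P ≤ wv u P p 1 := by
    intro n hn
    have hn0 : (0 : ℝ) < n := by exact_mod_cast (by omega : 0 < n)
    have h2 := wv_steps hP hu hp hn (n - 1) (by omega)
    have e1 : ((n - 1 : ℕ) : ℝ) = n - 1 := by
      rw [Nat.cast_sub hn, Nat.cast_one]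
    rw [e1] at h2
    have e2 : (1 : ℝ) - ((n : ℝ) - 1 + 1) / n = 0 := by
      field_simp
      ring
    rw [e2, zero_pow (by omega), sub_zero] at h2
    refine le_trans h2 ?_
    have h3 := wv_step (by omega) hP hu hp (σ := ((n : ℝ) - 1) / n) (σ' := 1)
      (div_nonneg (by
        have : (1 : ℝ) ≤ n := by exact_mod_cast hn
        linarith) hn0.le) (by rw [div_lt_one hn0]; linarith) le_rfl
    refine le_trans ?_ h3
    have h4 : 0 ≤ (1 - ((n : ℝ) - 1) / n) * (1 - (1 - ((n : ℝ) - 1) / n) / 2) *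
        (1 - (((n : ℝ) - 1) / n + 1) / 2) ^ (m + 1 - 1) * vr P := by
      have h5 : (1 : ℝ) - ((n : ℝ) - 1) / n = 1 / n := by
        field_simp
        ring
      have h6 : (1 : ℝ) - (((n : ℝ) - 1) / n + 1) / 2 = 1 / (2 * n) := by
        field_simp
        ring
      have h7 : (0 : ℝ) ≤ 1 - 1 / n / 2 := by
        have h9 : (1 : ℝ) ≤ n := by exact_mod_cast hn
        have h10 : (1 : ℝ) / n ≤ 1 := by
          rw [div_le_one hn0]
          exact h9
        linarith
      rw [h5, h6]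
      positivity
    linarith
  have h2 : Tendsto (fun n : ℕ => (1 + (1 - 1 / (2 * (n : ℝ))) * (1 / ((m : ℝ) + 1)) *
      ((1 - 1 / (n : ℝ)) ^ (m + 1))) * vr P) atTop (𝓝 ((1 + 1 / ((m : ℝ) + 1)) * vr P)) := by
    have h3 : Tendsto (fun n : ℕ => (1 : ℝ) / n) atTop (𝓝 0) := tendsto_one_div_atTop_nhds_zero_nat
    have h4 : Tendsto (fun n : ℕ => (1 : ℝ) / (2 * n)) atTop (𝓝 0) := by
      have h5 := h3.const_mul (1 / 2)
      rw [mul_zero] at h5
      refine h5.congr fun n => ?_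
      rw [one_div, one_div, one_div, mul_inv]
    have h6 : Tendsto (fun n : ℕ => (1 + (1 - 1 / (2 * (n : ℝ))) * (1 / ((m : ℝ) + 1)) *
      ((1 - 1 / (n : ℝ)) ^ (m + 1))) * vr P) atTop
      (𝓝 ((1 + (1 - 0) * (1 / ((m : ℝ) + 1)) * ((1 - 0) ^ (m + 1))) * vr P)) := by
      refine Tendsto.mul_const _ (Tendsto.const_add _ ?_)
      refine Tendsto.mul (Tendsto.mul_const _ (Tendsto.const_sub _ h4)) ?_
      exact (Tendsto.const_sub _ h3).pow _
    have e1 : (1 + (1 - 0) * (1 / ((m : ℝ) + 1)) * ((1 - 0) ^ (m + 1))) * vr P =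
        (1 + 1 / ((m : ℝ) + 1)) * vr P := by
      rw [sub_zero, one_pow, one_mul, mul_one]
    rw [e1] at h6
    exact h6
  refine le_of_tendsto h2 ?_
  filter_upwards [eventually_ge_atTop 1] with n hn
  exact h1 n hn

/-- The packing bound: every point is seen with a direction. -/
theorem packing8 {m : ℕ} {ι : Type} [Fintype ι] (P : Set (E (m + 1))) (hP : Body P)
    (hne : P.Nonempty) (x v : ι → E (m + 1)) (hv : ∀ i, v i ≠ 0) (hx : ∀ i, x i ∈ closure P)
    (hsep : ∀ i j, i ≠ j → ∃ l : E (m + 1) →L[ℝ] ℝ, l (x i) = 1 ∧ l (x j) = -1 ∧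
      l (v i) = 0 ∧ l (v j) = 0 ∧ ∀ z ∈ P, |l z| < 1) :
    (Fintype.card ι : ℝ) * (1 + 1 / ((m : ℝ) + 1)) ≤ 2 ^ (m + 1) := by
  classical
  let C : ι → Set (E (m + 1)) := fun i => ((1 + 1 : ℝ) • P) ∩ cyl (v i) P ((1 : ℝ) • x i)
  have hCo : ∀ i, IsOpen (C i) := fun i =>
    (hP.op.smul₀ (by norm_num)).inter (isOpen_cyl _ hP.op _)
  have hdisj : ∀ i j, i ≠ j → Disjoint (C i) (C j) := by
    intro i j hij
    rw [Set.disjoint_left]
    rintro z ⟨-, t, ht⟩ ⟨-, t', ht'⟩
    obtain ⟨l, l1, l2, l3, l4, l5⟩ := hsep i j hij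
    have h1 := l5 _ ht
    have h2 := l5 _ ht'
    rw [one_smul, map_sub, map_sub, map_smul, smul_eq_mul, l1, l3, mul_zero, sub_zero] at h1
    rw [one_smul, map_sub, map_sub, map_smul, smul_eq_mul, l2, l4, mul_zero, sub_zero] at h2
    have h3 := (abs_lt.1 h1).1
    have h4 := (abs_lt.1 h2).2
    linarith
  have hsum : ∑ i : ι, volume (C i) ≤ volume ((1 + 1 : ℝ) • P) := by
    rw [← measure_biUnion_finset (s := Finset.univ) (f := C)
      (fun i _ j _ hij => hdisj i j hij) fun i _ => (hCo i).measurableSet]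
    exact measure_mono (Set.iUnion₂_subset fun i _ => Set.inter_subset_left)
  have hfin : volume ((1 + 1 : ℝ) • P) ≠ ⊤ := (hP.bd.smul₀ _).measure_lt_top.ne
  have h1 : ∑ i : ι, vr (C i) ≤ vr ((1 + 1 : ℝ) • P) := by
    unfold vr
    rw [← ENNReal.toReal_sum fun i _ => fin_smul hP _ _]
    exact ENNReal.toReal_mono hfin hsum
  have h2 : vr ((1 + 1 : ℝ) • P) = 2 ^ (m + 1) * vr P := by
    have h3 := vr_smul (P := P) (c := 1 + 1) (by norm_num) 0
    simp only [sub_zero] at h3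
    rw [show (2 : ℝ) = 1 + 1 by norm_num, ← h3]
    rfl
  have h3 : ∀ i, (1 + 1 / ((m : ℝ) + 1)) * vr P ≤ vr (C i) := fun i => wv_one hP (hv i) (hx i)
  have hV : 0 < vr P := ENNReal.toReal_pos (hP.op.measure_pos volume hne).ne'
    hP.bd.measure_lt_top.ne
  have h4 : (Fintype.card ι : ℝ) * ((1 + 1 / ((m : ℝ) + 1)) * vr P) ≤ 2 ^ (m + 1) * vr P := by
    rw [← h2]
    refine le_trans ?_ h1
    rw [← nsmul_eq_mul, ← Finset.card_univ, ← Finset.sum_const]
    exact Finset.sum_le_sum fun i _ => h3 i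
  rw [← mul_assoc] at h4
  exact le_of_mul_le_mul_right h4 hV

/-- the bound for tangent configurations. -/
theorem tangent_bound8 {m k : ℕ} (hk : 2 ≤ k) {p u : Fin k → E (m + 1)} (h : Tangent p u) :
    (m + 2) * k ≤ (m + 1) * 2 ^ m := by
  classical
  have hex : ∀ q : (Fin k × Fin k) × Bool, ∃ l : E (m + 1) →L[ℝ] ℝ, (∀ c, |l (p c)| ≤ 1) ∧
      (q.1.1 ≠ q.1.2 → l (p q.1.1) = 1 ∧ l (p q.1.2) = bs q.2 ∧ l (u q.1.1) = 0 ∧
        l (u q.1.2) = 0) := by
    rintro ⟨⟨a, b⟩, s⟩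
    by_cases hab : a = b
    · exact ⟨0, fun c => by simp, fun h1 => absurd hab h1⟩
    · obtain ⟨l, l1, l2, l3, l4, l5⟩ := (h a b hab).2 (bs s) (bs_or s)
      refine ⟨l, fun c => ?_, fun _ => ⟨l1, l3, l2, l4⟩⟩
      by_cases hca : c = a
      · rw [hca, l1, abs_one]
      · by_cases hcb : c = b
        · rw [hcb, l3, abs_bs]
        · exact (l5 c hca hcb).le
  choose F hF1 hF2 using hex
  obtain ⟨R, hR⟩ : ∃ R : ℝ, R = 1 + ∑ c, ‖p c‖ := ⟨_, rfl⟩
  have hRc : ∀ c, ‖p c‖ < R := by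
    intro c
    have := Finset.single_le_sum (f := fun c => ‖p c‖) (fun i _ => norm_nonneg _)
      (Finset.mem_univ c)
    rw [hR]
    linarith
  have hR0 : 0 < R := by
    rw [hR]
    have : 0 ≤ ∑ c, ‖p c‖ := Finset.sum_nonneg fun _ _ => norm_nonneg _
    linarith
  obtain ⟨P, hP⟩ : ∃ P : Set (E (m + 1)), P = Metric.ball 0 R ∩ ⋂ q, {z | |F q z| < 1} :=
    ⟨_, rfl⟩
  have hmem : ∀ z, z ∈ P ↔ ‖z‖ < R ∧ ∀ q, |F q z| < 1 := by
    intro z
    rw [hP, Set.mem_inter_iff, Metric.mem_ball, dist_zero_right, Set.mem_iInter]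
    rfl
  have hPo : IsOpen P := by
    rw [hP]
    refine Metric.isOpen_ball.inter (isOpen_iInter_of_finite fun q => ?_)
    exact isOpen_lt (F q).continuous.abs continuous_const
  have hPc : Convex ℝ P := by
    rw [hP]
    refine (convex_ball 0 R).inter (convex_iInter fun q => ?_)
    intro z1 h1 z2 h2 a b ha hb hab
    have h1' := abs_lt.1 (show |F q z1| < 1 from h1)
    have h2' := abs_lt.1 (show |F q z2| < 1 from h2)
    show |F q (a • z1 + b • z2)| < 1
    rw [map_add, map_smul, map_smul, smul_eq_mul, smul_eq_mul, abs_lt]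
    have hb' : b = 1 - a := by linarith
    subst hb'
    constructor
    · nlinarith [h1'.1, h2'.1, mul_nonneg ha (by linarith [h1'.1] : (0 : ℝ) ≤ F q z1 + 1),
        mul_nonneg hb (by linarith [h2'.1] : (0 : ℝ) ≤ F q z2 + 1)]
    · nlinarith [h1'.2, h2'.2, mul_nonneg ha (by linarith [h1'.2] : (0 : ℝ) ≤ 1 - F q z1),
        mul_nonneg hb (by linarith [h2'.2] : (0 : ℝ) ≤ 1 - F q z2)]
  have hPb : Bornology.IsBounded P := by
    rw [hP]
    exact Metric.isBounded_ball.subset Set.inter_subset_left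
  have hPs : ∀ z ∈ P, -z ∈ P := by
    intro z hz
    rw [hmem] at hz ⊢
    refine ⟨by rw [norm_neg]; exact hz.1, fun q => ?_⟩
    rw [map_neg, abs_neg]
    exact hz.2 q
  have hP0 : (0 : E (m + 1)) ∈ P := by
    rw [hmem]
    refine ⟨by rw [norm_zero]; exact hR0, fun q => ?_⟩
    rw [map_zero, abs_zero]
    exact one_pos
  have hcl : ∀ i : Fin k × Bool, bs i.2 • p i.1 ∈ closure P := by
    intro i
    have h1 : Filter.Tendsto (fun t : ℝ => t • (bs i.2 • p i.1)) (nhdsWithin 1 (Set.Iio 1))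
        (nhds (bs i.2 • p i.1)) := by
      have h2 : Continuous fun t : ℝ => t • (bs i.2 • p i.1) := by fun_prop
      have h3 := h2.tendsto 1
      rw [one_smul] at h3
      exact h3.mono_left nhdsWithin_le_nhds
    refine mem_closure_of_tendsto h1 ?_
    have h4 : ∀ᶠ t : ℝ in nhdsWithin 1 (Set.Iio 1), 0 < t :=
      (lt_mem_nhds one_pos).filter_mono nhdsWithin_le_nhds
    filter_upwards [h4, self_mem_nhdsWithin] with t ht0 ht1
    have ht1' : t < 1 := ht1
    rw [hmem]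
    constructor
    · rw [norm_smul, norm_smul, Real.norm_eq_abs, Real.norm_eq_abs, abs_bs, one_mul,
        abs_of_pos ht0]
      have := hRc i.1
      have h5 := norm_nonneg (p i.1)
      nlinarith
    · intro q
      rw [map_smul, map_smul, smul_eq_mul, smul_eq_mul, abs_mul, abs_mul, abs_bs, one_mul,
        abs_of_pos ht0]
      have h5 := hF1 q i.1
      have h6 := abs_nonneg (F q (p i.1))
      nlinarith
  have hu0 : ∀ a, u a ≠ 0 := by
    intro a
    obtain ⟨b, hb⟩ : ∃ b : Fin k, a ≠ b := by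
      by_cases ha : (a : ℕ) = 0
      · exact ⟨⟨1, by omega⟩, fun h1 => by
          have := congrArg Fin.val h1
          simp only at this
          omega⟩
      · exact ⟨⟨0, by omega⟩, fun h1 => by
          have := congrArg Fin.val h1
          simp only at this
          omega⟩
    have h1 := (h a b hb).1
    exact h1.ne_zero 0
  have hcard := packing8 P ⟨hPo, hPc, hPs, hPb⟩ ⟨0, hP0⟩ (fun i : Fin k × Bool => bs i.2 • p i.1)
    (fun i => u i.1) (fun i => hu0 _) hcl (by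
    rintro ⟨a, s⟩ ⟨b, t⟩ hne
    have hbs : ∀ r : Bool, ∀ q, ∀ z ∈ P, |(bs r • F q) z| < 1 := by
      intro r q z hz
      rw [ContinuousLinearMap.smul_apply, smul_eq_mul, abs_mul, abs_bs, one_mul]
      exact ((hmem z).1 hz).2 q
    by_cases hab : a = b
    · subst hab
      have hst : s ≠ t := fun h1 => hne (by rw [h1])
      obtain ⟨c, hc⟩ : ∃ c : Fin k, a ≠ c := by
        by_cases ha : (a : ℕ) = 0
        · exact ⟨⟨1, by omega⟩, fun h1 => by
            have := congrArg Fin.val h1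
            simp only at this
            omega⟩
        · exact ⟨⟨0, by omega⟩, fun h1 => by
            have := congrArg Fin.val h1
            simp only at this
            omega⟩
      obtain ⟨f1, -, f3, -⟩ := hF2 ((a, c), true) hc
      refine ⟨bs s • F ((a, c), true), ?_, ?_, ?_, ?_, hbs _ _⟩
      · show (bs s • F ((a, c), true)) (bs s • p a) = 1
        rw [map_smul, ContinuousLinearMap.smul_apply, f1, smul_eq_mul, smul_eq_mul, mul_one,
          bs_mul_self]
      · show (bs s • F ((a, c), true)) (bs t • p a) = -1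
        rw [map_smul, ContinuousLinearMap.smul_apply, f1, smul_eq_mul, smul_eq_mul, mul_one]
        cases s <;> cases t
        · exact absurd rfl hst
        · norm_num
        · norm_num
        · exact absurd rfl hst
      · show (bs s • F ((a, c), true)) (u a) = 0
        rw [ContinuousLinearMap.smul_apply, f3, smul_zero]
      · show (bs s • F ((a, c), true)) (u a) = 0
        rw [ContinuousLinearMap.smul_apply, f3, smul_zero]
    · obtain ⟨f1, f2, f3, f4⟩ := hF2 ((a, b), xor s t) hab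
      refine ⟨bs s • F ((a, b), xor s t), ?_, ?_, ?_, ?_, hbs _ _⟩
      · show (bs s • F ((a, b), xor s t)) (bs s • p a) = 1
        rw [map_smul, ContinuousLinearMap.smul_apply, f1, smul_eq_mul, smul_eq_mul, mul_one,
          bs_mul_self]
      · show (bs s • F ((a, b), xor s t)) (bs t • p b) = -1
        rw [map_smul, ContinuousLinearMap.smul_apply, f2, smul_eq_mul, smul_eq_mul]
        cases s <;> cases t <;> norm_num
      · show (bs s • F ((a, b), xor s t)) (u a) = 0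
        rw [ContinuousLinearMap.smul_apply, f3, smul_zero]
      · show (bs s • F ((a, b), xor s t)) (u b) = 0
        rw [ContinuousLinearMap.smul_apply, f4, smul_zero])
  rw [Fintype.card_prod, Fintype.card_fin, Fintype.card_bool] at hcard
  push_cast at hcard
  have h1 : ((m : ℝ) + 2) * k ≤ (m + 1) * 2 ^ m := by
    have h2 : (k : ℝ) * 2 * (1 + 1 / ((m : ℝ) + 1)) = 2 * (((m : ℝ) + 2) * k) / (m + 1) := by
      field_simp
      ring
    rw [h2, div_le_iff₀ (by positivity), pow_succ] at hcard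
    linarith
  exact_mod_cast h1

/-- The upper bound for the cluster number. -/
theorem cluster_le8 {d : ℕ} (hd : 2 ≤ d) : (d + 1) * clusterNumber d ≤ d * 2 ^ (d - 1) := by
  obtain ⟨m, rfl⟩ : ∃ m, d = m + 1 := ⟨d - 1, by omega⟩
  rw [Nat.add_sub_cancel]
  obtain ⟨p, u, h⟩ := cluster_attained (m + 1)
  by_cases hk : 2 ≤ clusterNumber (m + 1)
  · exact tangent_bound8 hk h
  · have h1 : clusterNumber (m + 1) ≤ 1 := by omega
    have h2 : 2 ^ 1 ≤ 2 ^ m := Nat.pow_le_pow_right (by norm_num) (by omega)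
    nlinarith

end Pool.Agent.H.MP_4bcbbd_co.K8
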