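import Pool.Agent.H.MP_4bcbbd_co.helper8.Fibre

/-!
MP_4bcbbd_co, edges in all dimensions: the volume of a cylinder inside the double of a symmetric body.
-/

set_option autoImplicit false

namespace Pool.Agent.H.MP_4bcbbd_co.K8

open scoped BigOperators ENNReal Pointwise
open MeasureTheory

/-- a bounded open symmetric convex set. -/
structure Body {d : ℕ} (P : Set (E d)) : Prop where
  op : IsOpen P
  cv : Convex ℝ P
  sy : ∀ z ∈ P, -z ∈ P
  bd : Bornology.IsBounded P

/-- the cylinder in direction `u` over the translate of `P` by `x`. -/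
def cyl {d : ℕ} (u : E d) (P : Set (E d)) (x : E d) : Set (E d) := {z | ∃ t : ℝ, z - x - t • u ∈ P}

theorem mem_cyl {d : ℕ} {u : E d} {P : Set (E d)} {x z : E d} :
    z ∈ cyl u P x ↔ ∃ t : ℝ, z - x - t • u ∈ P := Iff.rfl

theorem isOpen_cyl {d : ℕ} (u : E d) {P : Set (E d)} (hP : IsOpen P) (x : E d) :
    IsOpen (cyl u P x) := by
  have : cyl u P x = ⋃ t : ℝ, {z | z - x - t • u ∈ P} := by
    ext z
    simp [cyl]
  rw [this]
  exact isOpen_iUnion fun t => hP.preimage (by fun_prop)

theorem cyl_add {d : ℕ} {u : E d} {P : Set (E d)} {x z : E d} (t : ℝ) :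
    z + t • u ∈ cyl u P x ↔ z ∈ cyl u P x := by
  constructor
  · rintro ⟨s, hs⟩
    refine ⟨s - t, ?_⟩
    have : z - x - (s - t) • u = z + t • u - x - s • u := by module
    rw [this]
    exact hs
  · rintro ⟨s, hs⟩
    refine ⟨s + t, ?_⟩
    have : z + t • u - x - (s + t) • u = z - x - s • u := by module
    rw [this]
    exact hs

theorem cyl_shift {d : ℕ} {u : E d} {P : Set (E d)} {x z : E d} (w : E d) :
    z + w ∈ cyl u P (x + w) ↔ z ∈ cyl u P x := by
  rw [mem_cyl, mem_cyl]
  have : ∀ t : ℝ, z + w - (x + w) - t • u = z - x - t • u := fun t => by module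
  simp only [this]

theorem cyl_neg {d : ℕ} {u : E d} {P : Set (E d)} (hP : Body P) {x z : E d} :
    -z ∈ cyl u P x ↔ z ∈ cyl u P (-x) := by
  constructor
  · rintro ⟨s, hs⟩
    refine ⟨-s, ?_⟩
    have : z - -x - (-s) • u = -(-z - x - s • u) := by module
    rw [this]
    exact hP.sy _ hs
  · rintro ⟨s, hs⟩
    refine ⟨-s, ?_⟩
    have : -z - x - (-s) • u = -(z - -x - s • u) := by module
    rw [this]
    exact hP.sy _ hs

/-- combinations. -/
theorem comb_mem {d : ℕ} {P : Set (E d)} (hP : Body P) {p x y : E d} (hp : p ∈ closure P)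
    (hx : x ∈ P) (hy : y ∈ P) {a b e : ℝ} (ha : 0 < a) (hb : 0 ≤ b) (he : 0 ≤ e) :
    a • x - b • y + e • p ∈ (a + b + e) • P := by
  have h1 : (a / (a + b)) • x + (b / (a + b)) • (-y) ∈ P :=
    hP.cv hx (hP.sy y hy) (by positivity) (by positivity) (by field_simp)
  rw [Set.mem_smul_set]
  rcases eq_or_lt_of_le he with h0 | hpos
  · refine ⟨_, h1, ?_⟩
    rw [← h0, zero_smul, add_zero, add_zero, smul_add, smul_smul, smul_smul, smul_neg]
    have e1 : (a + b) * (a / (a + b)) = a := by field_simp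
    have e2 : (a + b) * (b / (a + b)) = b := by field_simp
    rw [e1, e2]
    abel
  · have h2 : (a / (a + b)) • x + (b / (a + b)) • (-y) ∈ interior P := by
      rw [hP.op.interior_eq]
      exact h1
    have h3 := hP.cv.openSegment_interior_closure_subset_interior h2 hp
    refine ⟨((a + b) / (a + b + e)) • ((a / (a + b)) • x + (b / (a + b)) • (-y)) +
      (e / (a + b + e)) • p, ?_, ?_⟩
    · apply interior_subset
      apply h3
      exact ⟨(a + b) / (a + b + e), e / (a + b + e), by positivity, by positivity, by field_simp,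
        rfl⟩
    · rw [smul_add, smul_smul, smul_smul, smul_add, smul_smul, smul_smul, smul_neg]
      have e1 : (a + b + e) * ((a + b) / (a + b + e)) * (a / (a + b)) = a := by field_simp
      have e2 : (a + b + e) * ((a + b) / (a + b + e)) * (b / (a + b)) = b := by field_simp
      have e3 : (a + b + e) * (e / (a + b + e)) = e := by field_simp
      rw [e1, e2, e3]
      abel

/-- the volume as a real number. -/
noncomputable def vr {d : ℕ} (S : Set (E d)) : ℝ := (volume S).toReal

/-- the volume of the part of `(1 + σ) P` in the cylinder over `σ p + P`. -/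
noncomputable def wv {d : ℕ} (u : E d) (P : Set (E d)) (p : E d) (σ : ℝ) : ℝ :=
  vr (((1 + σ) • P) ∩ cyl u P (σ • p))

theorem fin_smul {d : ℕ} {P : Set (E d)} (hP : Body P) (c : ℝ) (S : Set (E d)) :
    volume (c • P ∩ S) ≠ ⊤ :=
  ((measure_mono Set.inter_subset_left).trans_lt (hP.bd.smul₀ c).measure_lt_top).ne

theorem len_ne_top {d : ℕ} {u : E d} (hu : u ≠ 0) {S : Set (E d)} (hS : Bornology.IsBounded S)
    (z : E d) : len u S z ≠ ⊤ := by
  obtain ⟨R, hR⟩ := hS.subset_closedBall 0
  have h1 : {t : ℝ | z + t • u ∈ S} ⊆ Metric.closedBall 0 ((R + ‖z‖) / ‖u‖) := by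
    intro t ht
    have h2 : ‖z + t • u‖ ≤ R := by simpa using hR ht
    rw [mem_closedBall_zero_iff, Real.norm_eq_abs]
    have h3 : ‖t • u‖ ≤ ‖z + t • u‖ + ‖z‖ := by
      have : t • u = (z + t • u) - z := by abel
      calc ‖t • u‖ = ‖(z + t • u) - z‖ := by rw [← this]
        _ ≤ _ := norm_sub_le _ _
    rw [norm_smul, Real.norm_eq_abs] at h3
    have h4 : 0 < ‖u‖ := norm_pos_iff.2 hu
    rw [le_div_iff₀ h4]
    linarith
  exact ((measure_mono h1).trans_lt measure_closedBall_lt_top).ne

theorem fibre_bounded {d : ℕ} {u : E d} (hu : u ≠ 0) {S : Set (E d)}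
    (hS : Bornology.IsBounded S) (z : E d) : Bornology.IsBounded {t : ℝ | z + t • u ∈ S} := by
  obtain ⟨R, hR⟩ := hS.subset_closedBall 0
  have h1 : {t : ℝ | z + t • u ∈ S} ⊆ Metric.closedBall 0 ((R + ‖z‖) / ‖u‖) := by
    intro t ht
    have h2 : ‖z + t • u‖ ≤ R := by simpa using hR ht
    rw [mem_closedBall_zero_iff, Real.norm_eq_abs]
    have h3 : ‖t • u‖ ≤ ‖z + t • u‖ + ‖z‖ := by
      have : t • u = (z + t • u) - z := by abel
      calc ‖t • u‖ = ‖(z + t • u) - z‖ := by rw [← this]
        _ ≤ _ := norm_sub_le _ _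
    rw [norm_smul, Real.norm_eq_abs] at h3
    have h4 : 0 < ‖u‖ := norm_pos_iff.2 hu
    rw [le_div_iff₀ h4]
    linarith
  exact Metric.isBounded_closedBall.subset h1

theorem fibre_convex {d : ℕ} {u : E d} {S : Set (E d)} (hS : Convex ℝ S) (z : E d) :
    Convex ℝ {t : ℝ | z + t • u ∈ S} := by
  intro t ht t' ht' a b ha hb hab
  have h1 := hS ht ht' ha hb hab
  show z + (a • t + b • t') • u ∈ S
  have h2 : z + (a • t + b • t') • u = a • (z + t • u) + b • (z + t' • u) := by
    have h3 : b = 1 - a := by linarith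
    rw [h3]
    simp only [smul_eq_mul]
    module
  rw [h2]
  exact h1

/-- the general comparison of fibres. -/
theorem vol_comp {d : ℕ} {u : E d} (hu : u ≠ 0) {A B : Set (E d)} (hA : IsOpen A)
    (hAc : ∀ z, Convex ℝ {t : ℝ | z + t • u ∈ A}) (hAb : Bornology.IsBounded A)
    (hB : IsOpen B) (hBb : Bornology.IsBounded B) {α β : ℝ} (hα : 0 < α) (hβ : 0 ≤ β)
    (h : ∀ (z : E d) (t t' : ℝ), z + t • u ∈ A → z + t' • u ∈ A →
      z + (α * t - β * t') • u ∈ B) : (α + β) * vr A ≤ vr B := by
  have h1 : volume A ≤ ENNReal.ofReal (α + β)⁻¹ * volume B := by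
    refine vol_le_of_len u hA hB _ (fun z => ?_) fun z => len_ne_top hu hBb z
    have h2 := vol_interval (I := {t : ℝ | z + t • u ∈ A}) (J := {t : ℝ | z + t • u ∈ B})
      (hAc z) (fibre_bounded hu hAb z) hα.le hβ fun t ht t' ht' => h z t t' ht ht'
    have h3 : 0 < α + β := by linarith
    rw [ENNReal.ofReal_inv_of_pos h3]
    calc len u A z = (ENNReal.ofReal (α + β))⁻¹ * (ENNReal.ofReal (α + β) * len u A z) := by
          rw [← mul_assoc, ENNReal.inv_mul_cancel (ENNReal.ofReal_pos.2 h3).ne'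
            ENNReal.ofReal_ne_top, one_mul]
      _ ≤ _ := mul_le_mul_right h2 _
  have h3 : 0 < α + β := by linarith
  have h4 := ENNReal.toReal_mono (ENNReal.mul_ne_top ENNReal.ofReal_ne_top
    hBb.measure_lt_top.ne) h1
  rw [ENNReal.toReal_mul, ENNReal.toReal_ofReal (by positivity)] at h4
  unfold vr
  rw [← le_div_iff₀' h3]
  rw [div_eq_inv_mul]
  exact h4

theorem vr_smul {d : ℕ} {P : Set (E d)} {c : ℝ} (hc : 0 ≤ c) (w : E d) :
    vr {z | z - w ∈ c • P} = c ^ d * vr P := by
  have h1 : {z | z - w ∈ c • P} = (fun z => z + -w) ⁻¹' (c • P) := by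
    ext z
    simp [sub_eq_add_neg]
  have hfr : Module.finrank ℝ (E d) = d := finrank_euclideanSpace_fin
  unfold vr
  rw [h1, measure_preimage_add_right, Measure.addHaar_smul, hfr, ENNReal.toReal_mul,
    ENNReal.toReal_ofReal (abs_nonneg _), abs_of_nonneg (by positivity)]

/-- One step. -/
theorem wv_step {d : ℕ} (hd : 1 ≤ d) {P : Set (E d)} (hP : Body P) {p u : E d} (hu : u ≠ 0)
    (hp : p ∈ closure P) {σ σ' : ℝ} (h0 : 0 ≤ σ) (h1 : σ < σ') (h2 : σ' ≤ 1) :
    wv u P p σ + (σ' - σ) * (1 - (σ' - σ) / 2) * (1 - (σ + σ') / 2) ^ (d - 1) * vr P ≤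
      wv u P p σ' := by
  obtain ⟨c, hc⟩ : ∃ c, c = 1 + σ := ⟨_, rfl⟩
  obtain ⟨c', hc'⟩ : ∃ c', c' = 1 + σ' := ⟨_, rfl⟩
  obtain ⟨s, hs⟩ : ∃ s, s = (σ + σ') / 2 := ⟨_, rfl⟩
  obtain ⟨e, he⟩ : ∃ e, e = (σ' - σ) / 2 := ⟨_, rfl⟩
  have hs1 : s < 1 := by linarith
  have hc0 : 0 < c := by linarith
  have hc0' : 0 < c' := by linarith
  have he0 : 0 < e := by linarith
  obtain ⟨X, hX⟩ : ∃ X, X = cyl u P (σ' • p) ∩ cyl u P (-(σ • p)) := ⟨_, rfl⟩
  obtain ⟨Y, hY⟩ : ∃ Y, Y = cyl u P (-(σ' • p)) ∩ cyl u P (σ • p) := ⟨_, rfl⟩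
  have hXo : IsOpen X := by
    rw [hX]
    exact (isOpen_cyl u hP.op _).inter (isOpen_cyl u hP.op _)
  have hYo : IsOpen Y := by
    rw [hY]
    exact (isOpen_cyl u hP.op _).inter (isOpen_cyl u hP.op _)
  have hXu : ∀ (z : E d) (t : ℝ), z + t • u ∈ X ↔ z ∈ X := by
    intro z t
    rw [hX, Set.mem_inter_iff, Set.mem_inter_iff, cyl_add, cyl_add]
  have hco : IsOpen (c • P) := hP.op.smul₀ hc0.ne'
  have hco' : IsOpen (c' • P) := hP.op.smul₀ hc0'.ne'
  have hcc : Convex ℝ (c • P) := hP.cv.smul c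
  have hcb : Bornology.IsBounded (c • P) := hP.bd.smul₀ c
  have hcb' : Bornology.IsBounded (c' • P) := hP.bd.smul₀ c'
  have hp0 : ∃ q, q ∈ P := by
    have : (closure P).Nonempty := ⟨p, hp⟩
    exact closure_nonempty_iff.1 this
  have h0P : (0 : E d) ∈ P := by
    obtain ⟨q, hq⟩ := hp0
    have := hP.cv hq (hP.sy q hq) (by norm_num : (0 : ℝ) ≤ 1 / 2) (by norm_num : (0 : ℝ) ≤ 1 / 2)
      (by norm_num)
    simpa using this
  -- (i)
  have i1 : c' / c * vr (c • P ∩ X) ≤ vr (c' • P ∩ X) := by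
    have h3 : (c' / c + 1) / 2 + (c' / c - 1) / 2 = c' / c := by ring
    have h4 : 1 < c' / c := by
      rw [lt_div_iff₀ hc0]
      linarith
    have h5 := vol_comp hu (A := c • P ∩ X) (B := c' • P ∩ X) (α := (c' / c + 1) / 2)
      (β := (c' / c - 1) / 2) (hco.inter hXo) (fun z => ?_) (hcb.subset Set.inter_subset_left)
      (hco'.inter hXo) (hcb'.subset Set.inter_subset_left) (by linarith) (by linarith) ?_
    · rw [h3] at h5
      exact h5
    · by_cases hz : z ∈ X
      · have h6 : {t : ℝ | z + t • u ∈ c • P ∩ X} = {t : ℝ | z + t • u ∈ c • P} := by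
          ext t
          simp only [Set.mem_ofPred_eq, Set.mem_inter_iff, hXu, hz, and_true]
        rw [h6]
        exact fibre_convex hcc z
      · have h6 : {t : ℝ | z + t • u ∈ c • P ∩ X} = ∅ := by
          ext t
          simp only [Set.mem_ofPred_eq, Set.mem_inter_iff, hXu, hz, and_false,
            Set.mem_empty_iff_false]
        rw [h6]
        exact convex_empty
    · rintro z t t' ⟨⟨x, hx, hxz⟩, hX1⟩ ⟨⟨y, hy, hyz⟩, -⟩
      refine ⟨?_, (hXu _ _).2 ((hXu _ _).1 hX1)⟩
      have h7 := comb_mem hP hp hx hy (a := (c' / c + 1) / 2 * c) (b := (c' / c - 1) / 2 * c)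
        (e := 0) (by positivity) (mul_nonneg (by linarith) hc0.le) le_rfl
      have h8 : (c' / c + 1) / 2 * c + (c' / c - 1) / 2 * c + 0 = c' := by
        field_simp
        ring
      rw [h8, zero_smul, add_zero] at h7
      simp only at hxz hyz
      have h9 : ((c' / c + 1) / 2 * c) • x - ((c' / c - 1) / 2 * c) • y =
          z + ((c' / c + 1) / 2 * t - (c' / c - 1) / 2 * t') • u := by
        rw [mul_smul, mul_smul, hxz, hyz]
        module
      rw [h9] at h7
      exact h7
  -- (iv)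
  have i4 : (c - e) * (1 - s) ^ (d - 1) * vr P ≤ vr (c • P ∩ X) := by
    have hM1 : ∀ x ∈ P, (1 - s) • x + e • p ∈ X := by
      intro x hx
      rw [hX]
      constructor
      · refine ⟨0, ?_⟩
        have h3 : (1 - s) • x + e • p - σ' • p - (0 : ℝ) • u = (1 - s) • x + s • (-p) := by
          have h4 : e - σ' = -s := by rw [he, hs]; ring
          calc (1 - s) • x + e • p - σ' • p - (0 : ℝ) • u = (1 - s) • x + (e - σ') • p := by module
            _ = _ := by rw [h4]; module
        rw [h3]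
        have h5 : -p ∈ closure P := by
          rw [mem_closure_iff_seq_limit] at hp ⊢
          obtain ⟨q, hq1, hq2⟩ := hp
          exact ⟨fun n => -q n, fun n => hP.sy _ (hq1 n), hq2.neg⟩
        have h6 := comb_mem hP h5 hx hx (a := 1 - s) (b := 0) (e := s) (by linarith) le_rfl
          (by linarith)
        have h7 : 1 - s + 0 + s = 1 := by ring
        rw [h7, one_smul, zero_smul, sub_zero] at h6
        exact h6
      · refine ⟨0, ?_⟩
        have h3 : (1 - s) • x + e • p - -(σ • p) - (0 : ℝ) • u = (1 - s) • x + s • p := by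
          have h4 : e + σ = s := by rw [he, hs]; ring
          calc (1 - s) • x + e • p - -(σ • p) - (0 : ℝ) • u = (1 - s) • x + (e + σ) • p := by module
            _ = _ := by rw [h4]
        rw [h3]
        have h6 := comb_mem hP hp hx hx (a := 1 - s) (b := 0) (e := s) (by linarith) le_rfl
          (by linarith)
        have h7 : 1 - s + 0 + s = 1 := by ring
        rw [h7, one_smul, zero_smul, sub_zero] at h6
        exact h6
    have hMo : IsOpen {z | z - e • p ∈ (1 - s) • P} :=
      (hP.op.smul₀ (by linarith : (1 - s) ≠ 0)).preimage (by fun_prop)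
    have hMb : Bornology.IsBounded {z | z - e • p ∈ (1 - s) • P} := by
      have h3 : {z | z - e • p ∈ (1 - s) • P} = (fun z => z + e • p) '' ((1 - s) • P) := by
        ext z
        constructor
        · intro hz
          exact ⟨z - e • p, hz, by simp⟩
        · rintro ⟨y, hy, rfl⟩
          show y + e • p - e • p ∈ (1 - s) • P
          rw [add_sub_cancel_right]
          exact hy
      rw [h3]
      have h4 : (fun z => z + e • p) '' ((1 - s) • P) = (1 - s) • P + {e • p} := by
        simp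
      rw [h4]
      exact (hP.bd.smul₀ _).add Bornology.isBounded_singleton
    obtain ⟨κ, hκ⟩ : ∃ κ, κ = (c - e) / (1 - s) := ⟨_, rfl⟩
    have hκ1 : 1 ≤ κ := by
      rw [hκ, le_div_iff₀ (by linarith)]
      linarith
    have h3 : (κ + 1) / 2 + (κ - 1) / 2 = κ := by ring
    have h5 := vol_comp hu (A := {z | z - e • p ∈ (1 - s) • P}) (B := c • P ∩ X)
      (α := (κ + 1) / 2)
      (β := (κ - 1) / 2) hMo (fun z => ?_) hMb
      (hco.inter hXo) (hcb.subset Set.inter_subset_left) (by linarith) (by linarith) ?_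
    · rw [h3, vr_smul (by linarith)] at h5
      have h6 : κ * ((1 - s) ^ d * vr P) = (c - e) * (1 - s) ^ (d - 1) * vr P := by
        obtain ⟨m, rfl⟩ : ∃ m, d = m + 1 := ⟨d - 1, by omega⟩
        have h7 : (1 - s) ≠ 0 := by linarith
        rw [hκ, Nat.add_sub_cancel, pow_succ]
        field_simp
      rw [h6] at h5
      exact h5
    · have h6 : {t : ℝ | z + t • u ∈ {z | z - e • p ∈ (1 - s) • P}} =
          {t : ℝ | (z - e • p) + t • u ∈ (1 - s) • P} := by
        ext t
        simp only [Set.mem_ofPred_eq]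
        have : z + t • u - e • p = z - e • p + t • u := by abel
        rw [this]
      rw [h6]
      exact fibre_convex (hP.cv.smul (1 - s)) _
    · rintro z t t' ⟨x, hx, hxz⟩ ⟨y, hy, hyz⟩
      simp only at hxz hyz
      have hx1 : z + t • u = (1 - s) • x + e • p := by
        rw [hxz]
        abel
      have hy1 : z + t' • u = (1 - s) • y + e • p := by
        rw [hyz]
        abel
      refine ⟨?_, ?_⟩
      · have h7 := comb_mem hP hp hx hy (a := (κ + 1) / 2 * (1 - s)) (b := (κ - 1) / 2 * (1 - s))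
          (e := e) (mul_pos (by linarith) (by linarith)) (mul_nonneg (by linarith) (by linarith))
          he0.le
        have h8 : (κ + 1) / 2 * (1 - s) + (κ - 1) / 2 * (1 - s) + e = c := by
          have : (1 - s) ≠ 0 := by linarith
          rw [hκ]
          field_simp
          ring
        rw [h8] at h7
        have h9 : ((κ + 1) / 2 * (1 - s)) • x - ((κ - 1) / 2 * (1 - s)) • y + e • p =
            z + ((κ + 1) / 2 * t - (κ - 1) / 2 * t') • u := by
          calc ((κ + 1) / 2 * (1 - s)) • x - ((κ - 1) / 2 * (1 - s)) • y + e • p =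
              ((κ + 1) / 2) • ((1 - s) • x + e • p) - ((κ - 1) / 2) • ((1 - s) • y + e • p) := by
                module
            _ = _ := by
                rw [← hx1, ← hy1]
                module
        rw [h9] at h7
        exact h7
      · rw [hXu, ← hXu z t, hx1]
        exact hM1 x hx
  -- (ii)
  have i2 : vr (c • P ∩ (cyl u P (σ • p) \ Y)) ≤ vr (c' • P ∩ (cyl u P (σ' • p) \ X)) := by
    have h3 : (fun z => z + (-((σ' - σ) • p))) ⁻¹' (c • P ∩ (cyl u P (σ • p) \ Y)) ⊆
        c' • P ∩ (cyl u P (σ' • p) \ X) := by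
      intro z hz
      have h4 : z + (-((σ' - σ) • p)) ∈ c • P ∩ (cyl u P (σ • p) \ Y) := hz
      obtain ⟨y, hy⟩ : ∃ y, y = z + (-((σ' - σ) • p)) := ⟨_, rfl⟩
      rw [← hy] at h4
      have hz1 : z = y + (σ' - σ) • p := by
        rw [hy]
        abel
      obtain ⟨⟨x, hx, hxy⟩, hB, hYn⟩ := h4
      simp only at hxy
      rw [hz1]
      refine ⟨?_, ?_, ?_⟩
      · have h7 := comb_mem hP hp hx hx (a := c) (b := 0) (e := σ' - σ) hc0 le_rfl (by linarith)
        have h8 : c + 0 + (σ' - σ) = c' := by rw [hc, hc']; ring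
        rw [h8, zero_smul, sub_zero, hxy] at h7
        exact h7
      · have h8 : σ' • p = σ • p + (σ' - σ) • p := by module
        rw [h8, cyl_shift]
        exact hB
      · intro hXm
        apply hYn
        rw [hX] at hXm
        rw [hY]
        have h8 : σ' • p = σ • p + (σ' - σ) • p := by module
        have h9 : -(σ • p) = -(σ' • p) + (σ' - σ) • p := by module
        obtain ⟨hXa, hXb⟩ := hXm
        rw [h8, cyl_shift] at hXa
        rw [h9, cyl_shift] at hXb
        exact ⟨hXb, hXa⟩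
    have h4 := measure_mono (μ := (volume : Measure (E d))) h3
    rw [measure_preimage_add_right] at h4
    exact ENNReal.toReal_mono (fin_smul hP _ _) h4
  -- (iii)
  have i3 : vr (c • P ∩ X) = vr (c • P ∩ Y) := by
    have h3 : (fun z : E d => -z) ⁻¹' (c • P ∩ X) = c • P ∩ Y := by
      ext z
      simp only [Set.mem_preimage, Set.mem_inter_iff]
      have h4 : -z ∈ c • P ↔ z ∈ c • P := by
        constructor
        · rintro ⟨x, hx, hxz⟩
          refine ⟨-x, hP.sy x hx, ?_⟩
          simp only at hxz ⊢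
          rw [smul_neg, hxz, neg_neg]
        · rintro ⟨x, hx, hxz⟩
          refine ⟨-x, hP.sy x hx, ?_⟩
          simp only at hxz ⊢
          rw [smul_neg, hxz]
      have h5 : -z ∈ X ↔ z ∈ Y := by
        rw [hX, hY, Set.mem_inter_iff, Set.mem_inter_iff, cyl_neg hP, cyl_neg hP, neg_neg]
      rw [h4, h5]
    unfold vr
    rw [← h3, Measure.measure_preimage_neg]
  -- sums
  have j1 : wv u P p σ = vr (c • P ∩ Y) + vr (c • P ∩ (cyl u P (σ • p) \ Y)) := by
    unfold wv vr
    rw [← hc, ← ENNReal.toReal_add (fin_smul hP _ _) (fin_smul hP _ _)]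
    congr 1
    rw [← measure_inter_add_diff (c • P ∩ cyl u P (σ • p)) hYo.measurableSet]
    congr 2
    · ext z
      simp only [Set.mem_inter_iff, hY]
      tauto
    · rw [Set.inter_diff_assoc]
  have j2 : wv u P p σ' = vr (c' • P ∩ X) + vr (c' • P ∩ (cyl u P (σ' • p) \ X)) := by
    unfold wv vr
    rw [← hc', ← ENNReal.toReal_add (fin_smul hP _ _) (fin_smul hP _ _)]
    congr 1
    rw [← measure_inter_add_diff (c' • P ∩ cyl u P (σ' • p)) hXo.measurableSet]
    congr 2
    · ext z
      simp only [Set.mem_inter_iff, hX]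
      tauto
    · rw [Set.inter_diff_assoc]
  rw [j1, j2, ← i3]
  have k1 : c' / c * vr (c • P ∩ X) = vr (c • P ∩ X) + (c' / c - 1) * vr (c • P ∩ X) := by ring
  have k2 : 0 ≤ c' / c - 1 := by
    rw [sub_nonneg, le_div_iff₀ hc0]
    linarith
  have k3 := mul_le_mul_of_nonneg_left i4 k2
  have hV : 0 ≤ vr P := ENNReal.toReal_nonneg
  have k4 : (σ' - σ) * (1 - (σ' - σ) / 2) * (1 - (σ + σ') / 2) ^ (d - 1) * vr P ≤
      (c' / c - 1) * ((c - e) * (1 - s) ^ (d - 1) * vr P) := by
    rw [← hs, ← he]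
    have k5 : (σ' - σ) * (1 - e) ≤ (c' / c - 1) * (c - e) := by
      have k6 : (c' / c - 1) * (c - e) = (σ' - σ) * (1 - e / c) := by
        field_simp
        rw [hc, hc']
        ring
      rw [k6]
      refine mul_le_mul_of_nonneg_left ?_ (by linarith)
      have k7 : e / c ≤ e := div_le_self he0.le (by linarith)
      linarith
    have k8 : 0 ≤ (1 - s) ^ (d - 1) * vr P := mul_nonneg (pow_nonneg (by linarith) _) hV
    calc (σ' - σ) * (1 - e) * (1 - s) ^ (d - 1) * vr P =
        (σ' - σ) * (1 - e) * ((1 - s) ^ (d - 1) * vr P) := by ring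
      _ ≤ (c' / c - 1) * (c - e) * ((1 - s) ^ (d - 1) * vr P) :=
          mul_le_mul_of_nonneg_right k5 k8
      _ = _ := by ring
  linarith

end Pool.Agent.H.MP_4bcbbd_co.K8
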